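import Pool.Agent.T2H95.Cut.Fin

/-!
Self-avoiding walks on the honeycomb lattice (brick-wall coordinates, same description as in the
frozen statement): the rows of parallel edges which the uniform `n`-step walk crosses exactly once
are sparse, in all windows at all scales.
-/

set_option autoImplicit false

namespace Pool.Agent.Results.MP_b440f6_pr.CutRows

/-- Adjacency in the honeycomb lattice (brick-wall model), as in the frozen statement. -/
def Nbr (p q : ℤ × ℤ) : Prop :=
  (p.2 = q.2 ∧ (p.1 - q.1 = 1 ∨ q.1 - p.1 = 1)) ∨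
    (p.1 = q.1 ∧ ((q.2 = p.2 + 1 ∧ Even (p.1 + p.2)) ∨ (p.2 = q.2 + 1 ∧ Even (q.1 + q.2))))

/-- The set of `n`-step self-avoiding walks from the origin. -/
def walks (n : ℕ) : Set (Fin (n + 1) → ℤ × ℤ) :=
  {ω | ω 0 = (0, 0) ∧ Function.Injective ω ∧ ∀ i : Fin n, Nbr (ω i.castSucc) (ω i.succ)}

/-- The probability that the uniform `n`-step self-avoiding walk has property `A`. -/
noncomputable def prob (n : ℕ) (A : (Fin (n + 1) → ℤ × ℤ) → Prop) : ℝ :=
  ({ω ∈ walks n | A ω}.ncard : ℝ) / ((walks n).ncard : ℝ)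

/-- The three level functions, one for each direction of edges. Along an edge each of them changes
by one. The edges between a vertex of level `2 j` and a vertex of level `2 j + 1` (for the level
function `d`) are parallel to each other: they form the row `j` of the family `d`, and they are the
edges cut by a line perpendicular to them. -/
def level : Fin 3 → ℤ × ℤ → ℤ
  | 0, p => p.1 - p.2
  | 1, p => -(p.1 + p.2)
  | 2, p => 2 * p.2 - (p.1 + p.2) % 2

/-- Step `i` of the walk crosses the row `j` of the family `d`. -/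
def Crosses (d : Fin 3) {n : ℕ} (ω : Fin (n + 1) → ℤ × ℤ) (j : ℤ) (i : Fin n) : Prop :=
  (level d (ω i.castSucc) = 2 * j ∧ level d (ω i.succ) = 2 * j + 1) ∨
    (level d (ω i.castSucc) = 2 * j + 1 ∧ level d (ω i.succ) = 2 * j)

/-- The number of the rows `j` of the family `d` with `a < j ≤ a + w` which the walk crosses exactly
once. -/
noncomputable def cutRows (d : Fin 3) {n : ℕ} (ω : Fin (n + 1) → ℤ × ℤ) (a : ℤ) (w : ℕ) : ℕ :=
  {j : ℤ | a < j ∧ j ≤ a + w ∧ ∃! i, Crosses d ω j i}.ncard

theorem nbr_iff (p q : ℤ × ℤ) : Nbr p q ↔ H978R2.Hex.Adj p q := by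
  obtain ⟨a, b⟩ := p
  obtain ⟨x, y⟩ := q
  unfold Nbr H978R2.Hex.Adj
  simp only [Prod.mk_sub_mk, Prod.mk.injEq]
  constructor
  · rintro (⟨h1, h2 | h2⟩ | ⟨h1, ⟨h2, h3⟩ | ⟨h2, h3⟩⟩)
    · right; left; omega
    · left; omega
    · right; right; left; exact ⟨by omega, h3⟩
    · right; right; right; exact ⟨by omega, h3⟩
  · rintro (h | h | ⟨h, h'⟩ | ⟨h, h'⟩)
    · left; omega
    · left; omega
    · right; exact ⟨by omega, Or.inl ⟨by omega, h'⟩⟩
    · right; exact ⟨by omega, Or.inr ⟨by omega, h'⟩⟩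

theorem walks_eq (n : ℕ) : walks n = H978R2.Hex.saws n := by
  ext f
  unfold walks H978R2.Hex.saws
  simp only [Set.mem_ofPred_eq]
  constructor
  · rintro ⟨h1, h2, h3⟩
    exact ⟨h1, h2, fun i => (nbr_iff _ _).1 (h3 i)⟩
  · rintro ⟨h1, h2, h3⟩
    exact ⟨h1, h2, fun i => (nbr_iff _ _).2 (h3 i)⟩

theorem prob_eq (n : ℕ) (A : (Fin (n + 1) → ℤ × ℤ) → Prop) :
    prob n A = Pool.Agent.Y981.QB.prob n A := by
  unfold prob Pool.Agent.Y981.QB.prob
  rw [walks_eq]

theorem level_eq (d : Fin 3) (p : ℤ × ℤ) : level d p = Pool.Agent.T2H95.Cut.lev d p := by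
  fin_cases d <;> rfl

theorem cutRows_eq (d : Fin 3) {n : ℕ} (ω : Fin (n + 1) → ℤ × ℤ) (a : ℤ) (w : ℕ) :
    cutRows d ω a w = Pool.Agent.T2H95.Cut.NC d ω a w := by
  unfold cutRows Pool.Agent.T2H95.Cut.NC Crosses Pool.Agent.T2H95.Cut.Cross
  simp only [level_eq]

/-- **Theorem.** There is a constant `C` such that for all `n ≥ 2` and `s ≥ 0` the following holds
for the uniform `n`-step self-avoiding walk on the honeycomb lattice with probability at least
`1 - exp (-s)`: simultaneously for the three families of rows and for all windows of `w ≥ 1`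
consecutive rows, the walk crosses less than `C ((log n)^2 + s) w^(177/200)` rows of the window
exactly once. In particular, typically at most `C' (log n)^2 h^(177/200)` of `h` consecutive rows
which separate the two end points of the walk are crossed only once, all others are crossed at
least three times. -/
theorem result : ∃ C : ℝ, 0 < C ∧ ∀ n : ℕ, 2 ≤ n → ∀ s : ℝ, 0 ≤ s →
    prob n (fun ω => ∃ (d : Fin 3) (a : ℤ) (w : ℕ), 1 ≤ w ∧
      C * (Real.log n ^ 2 + s) * (w : ℝ) ^ ((177 : ℝ) / 200) ≤ (cutRows d ω a w : ℝ)) ≤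
    Real.exp (-s) := by
  obtain ⟨C, hC, h⟩ := Pool.Agent.T2H95.Cut.fin
  refine ⟨C, hC, fun n hn s hs => ?_⟩
  rw [prob_eq]
  simp only [cutRows_eq]
  exact h n hn s hs

end Pool.Agent.Results.MP_b440f6_pr.CutRows
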