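import Pool.Agent.T2H95.Ret.Surv

/-!
Self-avoiding walks on the honeycomb lattice (brick-wall coordinates, same description as in the
frozen statement): the probability that the uniform self-avoiding walk in the plane, started at a
boundary vertex of a half-plane, stays in the half-plane.
-/

set_option autoImplicit false

namespace Pool.Agent.Results.MP_b440f6_pr.HalfPlaneSurvival

/-- Adjacency in the honeycomb lattice (brick-wall model), as in the frozen statement. -/
def Nbr (p q : ℤ × ℤ) : Prop :=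
  (p.2 = q.2 ∧ (p.1 - q.1 = 1 ∨ q.1 - p.1 = 1)) ∨
    (p.1 = q.1 ∧ ((q.2 = p.2 + 1 ∧ Even (p.1 + p.2)) ∨ (p.2 = q.2 + 1 ∧ Even (q.1 + q.2))))

/-- The set of `n`-step self-avoiding walks from the vertex `v`. -/
def walksFrom (v : ℤ × ℤ) (n : ℕ) : Set (Fin (n + 1) → ℤ × ℤ) :=
  {ω | ω 0 = v ∧ Function.Injective ω ∧ ∀ i : Fin n, Nbr (ω i.castSucc) (ω i.succ)}

/-- The half-plane: a zigzag of boundary vertices (level `x - y = 1`) and everything on one side. -/
def halfPlane : Set (ℤ × ℤ) := {p | 1 ≤ p.1 - p.2}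

/-- The boundary of the half-plane: the vertices with a neighbour outside. -/
def boundary : Set (ℤ × ℤ) := {p | p.1 - p.2 = 1}

/-- The `n`-step self-avoiding walks in the half-plane, started at the boundary vertex `(1, 0)`. -/
def halfWalks (n : ℕ) : Set (Fin (n + 1) → ℤ × ℤ) :=
  {ω ∈ walksFrom (1, 0) n | ∀ i, ω i ∈ halfPlane}

/-- The probability that the uniform `n`-step self-avoiding walk in the plane, started at `(1, 0)`,
has the property `A`. -/
noncomputable def prob (n : ℕ) (A : (Fin (n + 1) → ℤ × ℤ) → Prop) : ℝ :=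
  ({ω ∈ walksFrom (1, 0) n | A ω}.ncard : ℝ) / ((walksFrom (1, 0) n).ncard : ℝ)

/-- The probability that the uniform `n`-step self-avoiding walk in the plane, started at `(1, 0)`,
stays in the half-plane. -/
noncomputable def stay (n : ℕ) : ℝ := prob n (fun ω => ∀ i, ω i ∈ halfPlane)

theorem nbr_iff (p q : ℤ × ℤ) : Nbr p q ↔ H978R2.Hex.Adj p q := by
  obtain ⟨a, b⟩ := p
  obtain ⟨x, y⟩ := q
  unfold Nbr H978R2.Hex.Adj
  simp only [Prod.mk_sub_mk, Prod.mk.injEq]
  constructor
  · rintro (⟨h1, h2 | h2⟩ | ⟨h1, ⟨h2, h3⟩ | ⟨h2, h3⟩⟩)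
    · right; left; omega
    · left; omega
    · right; right; left; exact ⟨by omega, h3⟩
    · right; right; right; exact ⟨by omega, h3⟩
  · rintro (h | h | ⟨h, h'⟩ | ⟨h, h'⟩)
    · left; omega
    · left; omega
    · right; exact ⟨by omega, Or.inl ⟨by omega, h'⟩⟩
    · right; exact ⟨by omega, Or.inr ⟨by omega, h'⟩⟩

theorem mem_walks {v : ℤ × ℤ} {n : ℕ} {ω : Fin (n + 1) → ℤ × ℤ} : ω ∈ walksFrom v n ↔
    ω 0 = v ∧ Function.Injective ω ∧ ∀ i : Fin n, H978R2.Hex.Adj (ω i.castSucc) (ω i.succ) := by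
  unfold walksFrom
  simp only [Set.mem_ofPred_eq, nbr_iff]

theorem half_eq (n : ℕ) : halfWalks n = Pool.Agent.T2H95.Ret.hw n := by
  ext ω
  unfold halfWalks
  simp only [Set.mem_ofPred_eq, mem_walks]
  unfold halfPlane Pool.Agent.T2H95.Ret.hw
  simp only [Set.mem_ofPred_eq]
  tauto

theorem psi_psi (v : ℤ × ℤ) : H978R2.Hex.psi (H978R2.Hex.psi v) = v := by
  unfold H978R2.Hex.psi
  simp

theorem card_eq (n : ℕ) : (walksFrom (1, 0) n).ncard = (H978R2.Hex.saws n).ncard := by
  have himg : (fun ω : Fin (n + 1) → ℤ × ℤ => H978R2.Hex.psi ∘ ω) '' H978R2.Hex.saws n =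
      walksFrom (1, 0) n := by
    ext ω
    rw [Set.mem_image, mem_walks]
    constructor
    · rintro ⟨η, ⟨h1, h2, h3⟩, rfl⟩
      refine ⟨?_, ?_, ?_⟩
      · simp only [Function.comp, h1]
        rfl
      · intro i j hij
        exact h2 (H978R2.Hex.psi_inj hij)
      · intro i
        exact H978R2.Hex.psi_adj (h3 i)
    · rintro ⟨h1, h2, h3⟩
      refine ⟨H978R2.Hex.psi ∘ ω, ⟨?_, ?_, ?_⟩, ?_⟩
      · simp only [Function.comp, h1]
        rfl
      · intro i j hij
        exact h2 (H978R2.Hex.psi_inj hij)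
      · intro i
        exact H978R2.Hex.psi_adj (h3 i)
      · funext i
        simp only [Function.comp, psi_psi]
  rw [← himg]
  apply Set.ncard_image_of_injective
  intro ω ω' h
  funext i
  exact H978R2.Hex.psi_inj (congrFun h i)

theorem stay_eq (n : ℕ) : stay n = Pool.Agent.T2H95.Ret.qs n := by
  unfold stay prob Pool.Agent.T2H95.Ret.qs
  rw [card_eq, ← half_eq]
  rfl

theorem prob_exc (m : ℕ) :
    prob m (fun ω => (∀ i, ω i ∈ halfPlane) ∧ ω (Fin.last m) ∈ boundary) =
      (({ω ∈ Pool.Agent.T2H95.Ret.hw m | (ω (Fin.last m)).1 - (ω (Fin.last m)).2 = 1}).ncard : ℝ) /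
        ((H978R2.Hex.saws m).ncard : ℝ) := by
  unfold prob
  rw [card_eq, ← half_eq]
  congr 3
  ext ω
  unfold halfWalks boundary
  simp only [Set.mem_ofPred_eq]
  tauto

theorem ratio : H978R2.Hex.mu0 / Pool.Agent.W832.HR.c3 ≤ 2 * (1 + √2) := by
  have hmu := H978R2.Hex.mu0_pos
  have hc3 := Pool.Agent.W832.HR.c3_pos
  rw [div_le_iff₀ hc3]
  have h1 : Pool.Agent.W832.HR.c3 = √(2 - √2) / 2 := by
    unfold Pool.Agent.W832.HR.c3
    have : 3 * (Real.pi / 8) = Real.pi / 2 - Real.pi / 8 := by ring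
    rw [this, Real.cos_pi_div_two_sub, Real.sin_pi_div_eight]
  rw [h1]
  unfold H978R2.Hex.mu0
  have h3 : √2 * √2 = 2 := Real.mul_self_sqrt (by norm_num)
  have h4 : √2 ≤ 2 := by
    rw [Real.sqrt_le_left (by norm_num)]
    norm_num
  have h5 : 0 ≤ √2 := Real.sqrt_nonneg 2
  have h2 : √(2 + √2) ≤ (1 + √2) * √(2 - √2) := by
    rw [Real.sqrt_le_left (by positivity), mul_pow, Real.sq_sqrt (by linarith)]
    nlinarith
  linarith

/-- **Theorem.** Self-avoiding walks on the honeycomb lattice: let `stay n` be the probability that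
the uniform `n`-step self-avoiding walk in the plane, started at a boundary vertex of a half-plane,
stays in the half-plane.
There is a constant `C` such that, for all `n ≥ 2`:
(1) `stay 0 + … + stay n ≤ C log n * n ^ (377 / 400)`: on average over the length the walk stays in
the half-plane with probability at most `C log n * n ^ (-23 / 400)`;
(2) `stay n * (stay 0 + … + stay n) ≤ C (log n)^2 * n ^ (177 / 200)`;
(3) the numbers of half-plane walks satisfy
`∑_{j ≤ n} |halfWalks j| |halfWalks (n - j)| ≤ C (log n)^2 * n ^ (177 / 200) * |walks n|`.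
(4) Let `e m` be the probability that the uniform `m`-step self-avoiding walk in the plane stays in
the half-plane and ends on its boundary. Then `e 1 + … + e n ≤ 2 (1 + √2)` for all `n`. -/
theorem result :
    (∃ C : ℝ, 0 < C ∧ ∀ n : ℕ, 2 ≤ n →
      ∑ k ∈ Finset.range (n + 1), stay k ≤ C * Real.log n * (n : ℝ) ^ ((377 : ℝ) / 400) ∧
      stay n * ∑ k ∈ Finset.range (n + 1), stay k ≤
        C * Real.log n ^ 2 * (n : ℝ) ^ ((177 : ℝ) / 200) ∧
      ∑ j ∈ Finset.range (n + 1), ((halfWalks j).ncard : ℝ) * ((halfWalks (n - j)).ncard : ℝ) ≤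
        C * Real.log n ^ 2 * (n : ℝ) ^ ((177 : ℝ) / 200) * ((walksFrom (1, 0) n).ncard : ℝ)) ∧
    ∀ n : ℕ, ∑ m ∈ Finset.Icc 1 n,
      prob m (fun ω => (∀ i, ω i ∈ halfPlane) ∧ ω (Fin.last m) ∈ boundary) ≤ 2 * (1 + √2) := by
  constructor
  · obtain ⟨C1, hC1, h1⟩ := Pool.Agent.T2H95.Ret.q_average
    obtain ⟨C2, hC2, h2⟩ := Pool.Agent.T2H95.Ret.q_bound
    obtain ⟨C3, hC3, h3⟩ := Pool.Agent.T2H95.Ret.pairs_bound
    refine ⟨C1 + C2 + C3, by positivity, fun n hn => ?_⟩
    simp only [stay_eq, half_eq, card_eq]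
    have hnr : (2 : ℝ) ≤ n := by exact_mod_cast hn
    have hL : 0 ≤ Real.log n := Real.log_nonneg (by linarith)
    refine ⟨(h1 n hn).trans ?_, (h2 n hn).trans ?_, (h3 n hn).trans ?_⟩
    · gcongr
      linarith
    · gcongr
      linarith
    · gcongr
      linarith
  · intro n
    simp only [prob_exc]
    exact (Pool.Agent.T2H95.Ret.exc n).trans ratio

end Pool.Agent.Results.MP_b440f6_pr.HalfPlaneSurvival
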