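import Pool.Agent.T2H95.Saw.CorrL

/-!
Self-avoiding walks on the honeycomb lattice (brick-wall coordinates, same description as in the
frozen statement): two-sided bounds for the probability of a displacement `v n`, for all lengths `n`
and speeds `v`, and for the correlation length near the critical point.
-/

set_option autoImplicit false

namespace Pool.Agent.Results.MP_b440f6_pr.LargeDeviations

/-- Adjacency in the honeycomb lattice (brick-wall model), as in the frozen statement. -/
def Nbr (p q : ℤ × ℤ) : Prop :=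
  (p.2 = q.2 ∧ (p.1 - q.1 = 1 ∨ q.1 - p.1 = 1)) ∨
    (p.1 = q.1 ∧ ((q.2 = p.2 + 1 ∧ Even (p.1 + p.2)) ∨ (p.2 = q.2 + 1 ∧ Even (q.1 + q.2))))

/-- The set of `n`-step self-avoiding walks from the origin. -/
def walks (n : ℕ) : Set (Fin (n + 1) → ℤ × ℤ) :=
  {ω | ω 0 = (0, 0) ∧ Function.Injective ω ∧ ∀ i : Fin n, Nbr (ω i.castSucc) (ω i.succ)}

/-- The vertex of the regular honeycomb lattice with edge length `1` in the plane, the origin at `0`,
which has the brick-wall coordinates `p`. -/
noncomputable def pos (p : ℤ × ℤ) : ℂ :=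
  ⟨√3 / 2 * p.1, (3 * p.2 - ((p.1 + p.2) % 2 : ℤ)) / 2⟩

/-- The probability that the `n`-step self-avoiding walk has property `A`. -/
noncomputable def prob (n : ℕ) (A : (Fin (n + 1) → ℤ × ℤ) → Prop) : ℝ :=
  ({ω ∈ walks n | A ω}.ncard : ℝ) / ((walks n).ncard : ℝ)

/-- The number of the `n`-step self-avoiding walks from the origin whose end point is at distance at
least `r`. -/
noncomputable def far (r : ℝ) (n : ℕ) : ℕ := {ω ∈ walks n | r ≤ ‖pos (ω (Fin.last n))‖}.ncard

/-- The weight of a walk of `n` steps at the distance `t` from the critical point: the fugacity is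
`e^(-t) / μ` with `μ = √(2 + √2)`. -/
noncomputable def weight (t : ℝ) (n : ℕ) : ℝ := (Real.exp (-t) / Real.sqrt (2 + Real.sqrt 2)) ^ n

theorem pos_eq (p : ℤ × ℤ) : pos p = H978R2.Hex.pos p := by
  unfold pos H978R2.Hex.pos H978R2.Hex.ht
  push_cast
  rfl

theorem nbr_iff (p q : ℤ × ℤ) : Nbr p q ↔ H978R2.Hex.Adj p q := by
  obtain ⟨a, b⟩ := p
  obtain ⟨x, y⟩ := q
  unfold Nbr H978R2.Hex.Adj
  simp only [Prod.mk_sub_mk, Prod.mk.injEq]
  constructor
  · rintro (⟨h1, h2 | h2⟩ | ⟨h1, ⟨h2, h3⟩ | ⟨h2, h3⟩⟩)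
    · right; left; omega
    · left; omega
    · right; right; left; exact ⟨by omega, h3⟩
    · right; right; right; exact ⟨by omega, h3⟩
  · rintro (h | h | ⟨h, h'⟩ | ⟨h, h'⟩)
    · left; omega
    · left; omega
    · right; exact ⟨by omega, Or.inl ⟨by omega, h'⟩⟩
    · right; exact ⟨by omega, Or.inr ⟨by omega, h'⟩⟩

theorem walks_eq (n : ℕ) : walks n = H978R2.Hex.saws n := by
  ext f
  unfold walks H978R2.Hex.saws
  simp only [Set.mem_ofPred_eq]
  constructor
  · rintro ⟨h1, h2, h3⟩
    exact ⟨h1, h2, fun i => (nbr_iff _ _).1 (h3 i)⟩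
  · rintro ⟨h1, h2, h3⟩
    exact ⟨h1, h2, fun i => (nbr_iff _ _).2 (h3 i)⟩

theorem prob_eq (n : ℕ) (A : (Fin (n + 1) → ℤ × ℤ) → Prop) :
    prob n A = Pool.Agent.Y981.QB.prob n A := by
  unfold prob Pool.Agent.Y981.QB.prob
  rw [walks_eq]

theorem far_eq (r : ℝ) (n : ℕ) : far r n = Pool.Agent.T2H95.Saw.Wc n r := by
  unfold far Pool.Agent.T2H95.Saw.Wc
  rw [walks_eq]
  simp only [pos_eq]

/-- **Theorem.** On the honeycomb lattice (unit edges), with `μ = √(2 + √2)`, there are constants
`c, C > 0` with the following properties.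
(1) For all `n ≥ 2` and all speeds `0 < v ≤ 1/2`, the end point of the uniform `n`-step
self-avoiding walk is at distance at least `v n` from the origin with probability at least
`exp (- C ((log n)^2 + n v^2 log (2/v)))`.
(2) For all `n` and `0 < v ≤ 1`, two vertices of the walk have distance at least `v n` with
probability at most `3 exp (- n exp (- C (1 + log (1/v)) (1 + log (1 + log (1/v)))))`.
(3) For `0 < t ≤ 1/16` and `r ≥ 1` the generating function at the fugacity `e^(-t) / μ` of the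
walks with displacement at least `r` converges, it is at least
`exp (- C (r √(t log (1/t)) + (log (1/t))^2))` and at most
`exp (C (log (1/t))^2 - c r t^(1 - c / log log (1/t)))`: the inverse correlation length is at most
`C √(t log (1/t))` and at least `c t^(1 - c / log log (1/t))`. -/
theorem result : ∃ c C : ℝ, 0 < c ∧ 0 < C ∧
    (∀ n : ℕ, 2 ≤ n → ∀ v : ℝ, 0 < v → v ≤ 1 / 2 →
      Real.exp (-(C * (Real.log n ^ 2 + n * v ^ 2 * Real.log (2 / v)))) ≤
        prob n (fun ω => v * n ≤ ‖pos (ω (Fin.last n))‖)) ∧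
    (∀ n : ℕ, ∀ v : ℝ, 0 < v → v ≤ 1 →
      prob n (fun ω => ∃ i j, v * n ≤ ‖pos (ω i) - pos (ω j)‖) ≤
        3 * Real.exp (-(n * Real.exp (-(C * ((1 + Real.log (1 / v)) *
          (1 + Real.log (1 + Real.log (1 / v)))))))))  ∧
    ∀ t : ℝ, 0 < t → t ≤ 1 / 16 → ∀ r : ℝ, 1 ≤ r →
      Summable (fun n => weight t n * far r n) ∧
      Real.exp (-(C * (r * √(t * Real.log (1 / t)) + Real.log (1 / t) ^ 2))) ≤
        ∑' n, weight t n * far r n ∧
      ∑' n, weight t n * far r n ≤
        Real.exp (C * Real.log (1 / t) ^ 2 -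
          c * r * t ^ (1 - c / Real.log (Real.log (1 / t)))) := by
  obtain ⟨C1, hC1, h1⟩ := Pool.Agent.T2H95.Saw.ld_lower
  obtain ⟨-, C2, -, -, hC2, h2, -, -⟩ := Pool.Agent.Y981.QB.fin2
  obtain ⟨c, C3, hc, hC3, h3⟩ := Pool.Agent.T2H95.Saw.corr_upper
  obtain ⟨C4, hC4, h4⟩ := Pool.Agent.T2H95.Saw.corr_lower
  obtain ⟨C, hC⟩ : ∃ C : ℝ, C = C1 + C2 + C3 + C4 := ⟨_, rfl⟩
  refine ⟨c, C, hc, by rw [hC]; positivity, ?_, ?_, ?_⟩
  · intro n hn v hv0 hv1
    rw [prob_eq]
    refine le_trans ?_ (le_trans (h1 n hn v hv0 hv1) (le_of_eq ?_))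
    · apply Real.exp_le_exp.2
      have hl : 0 ≤ Real.log (2 / v) := by
        apply Real.log_nonneg
        rw [le_div_iff₀ hv0]
        linarith
      have h5 : 0 ≤ Real.log n ^ 2 + n * v ^ 2 * Real.log (2 / v) := by positivity
      rw [neg_le_neg_iff]
      apply mul_le_mul_of_nonneg_right _ h5
      rw [hC]
      linarith
    · simp only [pos_eq]
  · intro n v hv0 hv1
    rw [prob_eq]
    have hl : 0 ≤ Real.log (1 / v) := by
      apply Real.log_nonneg
      rw [le_div_iff₀ hv0]
      linarith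
    have hl2 : 0 ≤ Real.log (1 + Real.log (1 / v)) := Real.log_nonneg (by linarith)
    refine (Pool.Agent.Y981.QB.prob_mono (B := fun ω => v * n ≤ Pool.Agent.Y981.QB.diam ω) ?_).trans
      ((h2 v hv0 hv1 n).trans ?_)
    · rintro ω - ⟨i, j, hij⟩
      have h5 := Pool.Agent.Y981.QB.le_diam ω i j
      rw [← pos_eq, ← pos_eq] at h5
      exact hij.trans h5
    · have h6 : Real.exp (-(C * ((1 + Real.log (1 / v)) * (1 + Real.log (1 + Real.log (1 / v)))))) ≤
          Real.exp (-(C2 * Pool.Agent.Y981.QB.Yv v)) := by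
        apply Real.exp_le_exp.2
        rw [neg_le_neg_iff]
        unfold Pool.Agent.Y981.QB.Yv
        apply mul_le_mul_of_nonneg_right _ (by positivity)
        rw [hC]
        linarith
      have hn0 : (0 : ℝ) ≤ n := by positivity
      gcongr ?_ * ?_
      apply Real.exp_le_exp.2
      rw [neg_le_neg_iff, mul_comm]
      exact mul_le_mul_of_nonneg_right h6 hn0
  · intro t ht0 ht r hr
    have hfun : (fun n => weight t n * (far r n : ℝ)) = fun n : ℕ =>
        (Real.exp (-t) / H978R2.Hex.mu0) ^ n * (Pool.Agent.T2H95.Saw.Wc n r : ℝ) := by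
      funext n
      rw [far_eq]
      rfl
    rw [hfun]
    obtain ⟨h5, h6⟩ := h3 t ht0 ht r (by linarith)
    have h7 := h4 t ht0 ht r hr
    have hl : 0 ≤ Real.log (1 / t) := by
      apply Real.log_nonneg
      rw [le_div_iff₀ ht0]
      linarith
    refine ⟨h5, le_trans ?_ h7, h6.trans ?_⟩
    · apply Real.exp_le_exp.2
      rw [neg_le_neg_iff]
      apply mul_le_mul_of_nonneg_right _ (by positivity)
      rw [hC]
      linarith
    · apply Real.exp_le_exp.2
      have h8 : C3 * Real.log (1 / t) ^ 2 ≤ C * Real.log (1 / t) ^ 2 := by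
        apply mul_le_mul_of_nonneg_right _ (by positivity)
        rw [hC]
        linarith
      linarith

end Pool.Agent.Results.MP_b440f6_pr.LargeDeviations
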