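import Pool.Agent.T2H95.Ret.Diam

/-!
Self-avoiding walks on the honeycomb lattice (brick-wall coordinates, same description as in the
frozen statement): bounds for the probabilities that a walk in a half-plane ends on the boundary,
that a walk in the plane slit along a half-line ends next to the slit, and that a walk in the plane
closes.
-/

set_option autoImplicit false

namespace Pool.Agent.Results.MP_b440f6_pr.ReturnProbabilities

/-- Adjacency in the honeycomb lattice (brick-wall model), as in the frozen statement. -/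
def Nbr (p q : ℤ × ℤ) : Prop :=
  (p.2 = q.2 ∧ (p.1 - q.1 = 1 ∨ q.1 - p.1 = 1)) ∨
    (p.1 = q.1 ∧ ((q.2 = p.2 + 1 ∧ Even (p.1 + p.2)) ∨ (p.2 = q.2 + 1 ∧ Even (q.1 + q.2))))

/-- The set of `n`-step self-avoiding walks from the vertex `v`. -/
def walksFrom (v : ℤ × ℤ) (n : ℕ) : Set (Fin (n + 1) → ℤ × ℤ) :=
  {ω | ω 0 = v ∧ Function.Injective ω ∧ ∀ i : Fin n, Nbr (ω i.castSucc) (ω i.succ)}

/-- The half-plane: a zigzag of boundary vertices (level `x - y = 1`) and everything on one side. -/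
def halfPlane : Set (ℤ × ℤ) := {p | 1 ≤ p.1 - p.2}

/-- The boundary of the half-plane: the vertices with a neighbour outside. -/
def boundary : Set (ℤ × ℤ) := {p | p.1 - p.2 = 1}

/-- The half-line of vertices starting at the origin and going to the left. -/
def halfLine : Set (ℤ × ℤ) := {p | p.2 = 0 ∧ p.1 ≤ 0}

/-- The probability that the uniform `n`-step walk from `v` whose vertices are in `D` has the
property `A`. -/
noncomputable def prob (D : Set (ℤ × ℤ)) (v : ℤ × ℤ) (n : ℕ)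
    (A : (Fin (n + 1) → ℤ × ℤ) → Prop) : ℝ :=
  ({ω ∈ walksFrom v n | (∀ i, ω i ∈ D) ∧ A ω}.ncard : ℝ) /
    ({ω ∈ walksFrom v n | ∀ i, ω i ∈ D}.ncard : ℝ)

/-- The vertex of the regular honeycomb lattice with edge length `1` in the plane, the origin at `0`,
which has the brick-wall coordinates `p`. -/
noncomputable def pos (p : ℤ × ℤ) : ℂ :=
  ⟨√3 / 2 * p.1, (3 * p.2 - ((p.1 + p.2) % 2 : ℤ)) / 2⟩

/-- The diameter of a walk. -/
noncomputable def diam {n : ℕ} (ω : Fin (n + 1) → ℤ × ℤ) : ℝ :=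
  ⨆ p : Fin (n + 1) × Fin (n + 1), ‖pos (ω p.1) - pos (ω p.2)‖

/-- The closed walks: the last vertex is a neighbour of the first one. -/
def closed (n : ℕ) : Set (Fin (n + 1) → ℤ × ℤ) :=
  {ω ∈ walksFrom (0, 0) n | Nbr (ω (Fin.last n)) (ω 0)}

/-- The mean of `diam ω` on the event that the `n`-step walk `ω` is closed (and `0` otherwise). -/
noncomputable def closedDiam (n : ℕ) : ℝ :=
  (∑ᶠ ω ∈ closed n, diam ω) / ((walksFrom (0, 0) n).ncard : ℝ)

theorem pos_eq (p : ℤ × ℤ) : pos p = H978R2.Hex.pos p := by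
  unfold pos H978R2.Hex.pos H978R2.Hex.ht
  push_cast
  rfl

theorem diam_eq {n : ℕ} (ω : Fin (n + 1) → ℤ × ℤ) : diam ω = Pool.Agent.Y981.QB.diam ω := by
  unfold diam Pool.Agent.Y981.QB.diam
  simp only [pos_eq]

theorem nbr_iff (p q : ℤ × ℤ) : Nbr p q ↔ H978R2.Hex.Adj p q := by
  obtain ⟨a, b⟩ := p
  obtain ⟨x, y⟩ := q
  unfold Nbr H978R2.Hex.Adj
  simp only [Prod.mk_sub_mk, Prod.mk.injEq]
  constructor
  · rintro (⟨h1, h2 | h2⟩ | ⟨h1, ⟨h2, h3⟩ | ⟨h2, h3⟩⟩)
    · right; left; omega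
    · left; omega
    · right; right; left; exact ⟨by omega, h3⟩
    · right; right; right; exact ⟨by omega, h3⟩
  · rintro (h | h | ⟨h, h'⟩ | ⟨h, h'⟩)
    · left; omega
    · left; omega
    · right; exact ⟨by omega, Or.inl ⟨by omega, h'⟩⟩
    · right; exact ⟨by omega, Or.inr ⟨by omega, h'⟩⟩

theorem mem_walks {v : ℤ × ℤ} {n : ℕ} {ω : Fin (n + 1) → ℤ × ℤ} : ω ∈ walksFrom v n ↔
    ω 0 = v ∧ Function.Injective ω ∧ ∀ i : Fin n, H978R2.Hex.Adj (ω i.castSucc) (ω i.succ) := by
  unfold walksFrom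
  simp only [Set.mem_ofPred_eq, nbr_iff]

theorem walks_eq (n : ℕ) : walksFrom (0, 0) n = H978R2.Hex.saws n := by
  ext ω
  rw [mem_walks]
  rfl

theorem half_eq (n : ℕ) :
    {ω ∈ walksFrom (1, 0) n | ∀ i, ω i ∈ halfPlane} = Pool.Agent.T2H95.Ret.hw n := by
  ext ω
  simp only [Set.mem_ofPred_eq, mem_walks]
  unfold halfPlane Pool.Agent.T2H95.Ret.hw
  simp only [Set.mem_ofPred_eq]
  tauto

theorem slit_eq (n : ℕ) :
    {ω ∈ walksFrom (1, 0) n | ∀ i, ω i ∈ halfLineᶜ} = Pool.Agent.T2H95.Ret.sw n := by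
  ext ω
  simp only [Set.mem_ofPred_eq, mem_walks]
  unfold halfLine Pool.Agent.T2H95.Ret.sw H978R2.Hex.Slit
  simp only [Set.mem_ofPred_eq, Set.mem_compl_iff]
  tauto

theorem prob_half (m : ℕ) :
    prob halfPlane (1, 0) m (fun ω => ω (Fin.last m) ∈ boundary) = Pool.Agent.T2H95.Ret.hb m := by
  unfold prob Pool.Agent.T2H95.Ret.hb
  rw [half_eq, ← half_eq]
  congr 3
  ext ω
  simp only [Set.mem_ofPred_eq]
  unfold boundary
  simp only [Set.mem_ofPred_eq]
  tauto

theorem prob_slit (m : ℕ) :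
    prob halfLineᶜ (1, 0) m (fun ω => ∃ z ∈ halfLine, Nbr (ω (Fin.last m)) z) =
      Pool.Agent.T2H95.Ret.ps m := by
  unfold prob Pool.Agent.T2H95.Ret.ps Pool.Agent.T2H95.Ret.sb
  rw [← slit_eq]
  congr 3
  ext ω
  simp only [Set.mem_ofPred_eq, nbr_iff]
  unfold halfLine H978R2.Hex.Slit
  simp only [Set.mem_ofPred_eq]
  tauto

theorem closed_eq (n : ℕ) : closed n = Pool.Agent.T2H95.Ret.CW n := by
  ext ω
  rw [Pool.Agent.T2H95.Ret.CW_iff, ← walks_eq]
  unfold closed
  simp only [Set.mem_ofPred_eq, nbr_iff]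

theorem prob_closed (m : ℕ) :
    prob Set.univ (0, 0) m (fun ω => Nbr (ω (Fin.last m)) (ω 0)) = Pool.Agent.T2H95.Ret.pc m := by
  unfold prob Pool.Agent.T2H95.Ret.pc
  rw [← closed_eq, ← walks_eq]
  unfold closed
  simp only [Set.mem_univ, implies_true, true_and, and_true, Set.setOf_mem_eq]

theorem closedDiam_eq (m : ℕ) : closedDiam m = Pool.Agent.T2H95.Ret.dc m := by
  unfold closedDiam Pool.Agent.T2H95.Ret.dc
  rw [closed_eq, walks_eq]
  simp only [diam_eq]

theorem ratio : (√2 - 1) / 2 ≤ Pool.Agent.W832.HR.c3 / H978R2.Hex.mu0 := by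
  have hmu := H978R2.Hex.mu0_pos
  rw [le_div_iff₀ hmu]
  have h1 : Pool.Agent.W832.HR.c3 = √(2 - √2) / 2 := by
    unfold Pool.Agent.W832.HR.c3
    have : 3 * (Real.pi / 8) = Real.pi / 2 - Real.pi / 8 := by ring
    rw [this, Real.cos_pi_div_two_sub, Real.sin_pi_div_eight]
  rw [h1]
  unfold H978R2.Hex.mu0
  have h2 : (√2 - 1) * √(2 + √2) ≤ √(2 - √2) := by
    apply Real.le_sqrt_of_sq_le
    rw [mul_pow, Real.sq_sqrt (by positivity)]
    have h3 : √2 * √2 = 2 := Real.mul_self_sqrt (by norm_num)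
    nlinarith
  linarith

/-- **Theorem.** Self-avoiding walks on the honeycomb lattice.
(1) Let `h m` be the probability that the uniform `m`-step self-avoiding walk in a half-plane,
started at a boundary vertex, ends at a boundary vertex. Then
`h 1 + … + h n ≤ 2 (1 + √2) log (4 (n + 2))` for all `n`.
There is a constant `C` such that, for all `n ≥ 2`:
(2) `r 1 + … + r n ≤ C (log n)^2` for the probabilities `r m` that the uniform `m`-step
self-avoiding walk in the plane slit along a half-line, started next to the tip of the slit, ends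
at a vertex which has a neighbour on the slit;
(3) the probabilities `p m` that the uniform `m`-step self-avoiding walk closes (its last vertex is
a neighbour of the first) satisfy `∑_{2 ≤ m ≤ n} p m / √m ≤ C (log n)^2`, hence the average of
`p 2, …, p n` is at most `C (log n)^2 / √n`;
(4) moreover `∑_{2 ≤ m ≤ n} (1 / m) E_m [diam ω ; ω is closed] ≤ C (log n)^2`. -/
theorem result :
    (∀ n : ℕ, ∑ m ∈ Finset.Icc 1 n, prob halfPlane (1, 0) m (fun ω => ω (Fin.last m) ∈ boundary) ≤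
      2 * (1 + √2) * Real.log (4 * ((n : ℝ) + 2))) ∧
    ∃ C : ℝ, 0 < C ∧ ∀ n : ℕ, 2 ≤ n →
      ∑ m ∈ Finset.Icc 1 n,
          prob halfLineᶜ (1, 0) m (fun ω => ∃ z ∈ halfLine, Nbr (ω (Fin.last m)) z) ≤
        C * Real.log n ^ 2 ∧
      ∑ m ∈ Finset.Icc 2 n, prob Set.univ (0, 0) m (fun ω => Nbr (ω (Fin.last m)) (ω 0)) / √m ≤
        C * Real.log n ^ 2 ∧
      ∑ m ∈ Finset.Icc 2 n, prob Set.univ (0, 0) m (fun ω => Nbr (ω (Fin.last m)) (ω 0)) ≤
        C * Real.log n ^ 2 * √n ∧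
      ∑ m ∈ Finset.Icc 2 n, closedDiam m / m ≤ C * Real.log n ^ 2 := by
  constructor
  · intro n
    simp only [prob_half]
    have h1 := Pool.Agent.T2H95.Ret.sum_hb n
    have h2 := ratio
    have h3 : 0 ≤ ∑ m ∈ Finset.Icc 1 n, Pool.Agent.T2H95.Ret.hb m :=
      Finset.sum_nonneg fun m _ => by unfold Pool.Agent.T2H95.Ret.hb; positivity
    have h4 : (√2 - 1) / 2 * ∑ m ∈ Finset.Icc 1 n, Pool.Agent.T2H95.Ret.hb m ≤
        Real.log (4 * ((n : ℝ) + 2)) := (mul_le_mul_of_nonneg_right h2 h3).trans h1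
    have h5 : √2 * √2 = 2 := Real.mul_self_sqrt (by norm_num)
    have h6 : 0 ≤ √2 := Real.sqrt_nonneg 2
    have h7 := mul_le_mul_of_nonneg_left h4 (by positivity : 0 ≤ 2 * (1 + √2))
    calc ∑ m ∈ Finset.Icc 1 n, Pool.Agent.T2H95.Ret.hb m
        = 2 * (1 + √2) * ((√2 - 1) / 2 * ∑ m ∈ Finset.Icc 1 n, Pool.Agent.T2H95.Ret.hb m) := by
          have : 2 * (1 + √2) * ((√2 - 1) / 2) = 1 := by nlinarith
          rw [← mul_assoc, this, one_mul]
      _ ≤ _ := h7
  · obtain ⟨C1, hC1, h1⟩ := Pool.Agent.T2H95.Ret.all_returns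
    obtain ⟨C2, hC2, h2⟩ := Pool.Agent.T2H95.Ret.dc_returns
    refine ⟨2 * C1 + 2 * C2, by positivity, fun n hn => ?_⟩
    obtain ⟨h3, h4⟩ := h1 n hn
    have h5 := h2 n hn
    have hI : ∀ k, Finset.Icc k n = Finset.Ico k (n + 1) := by
      intro k
      ext i
      rw [Finset.mem_Icc, Finset.mem_Ico]
      omega
    simp only [prob_slit, prob_closed, closedDiam_eq, hI]
    have hL : 0 ≤ Real.log n ^ 2 := by positivity
    have hpc : ∀ m, 0 ≤ Pool.Agent.T2H95.Ret.pc m := fun m => by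
      unfold Pool.Agent.T2H95.Ret.pc
      positivity
    have hs : ∑ m ∈ Finset.Ico 2 (n + 1), Pool.Agent.T2H95.Ret.pc m / √m ≤
        (2 * C1 + 2 * C2) * Real.log n ^ 2 := by
      have h6 : ∑ m ∈ Finset.Ico 2 (n + 1), Pool.Agent.T2H95.Ret.pc m / √m ≤
          2 * ∑ m ∈ Finset.Ico 2 (n + 1), Pool.Agent.T2H95.Ret.pc m / √((m : ℝ) + 1) := by
        rw [Finset.mul_sum]
        refine Finset.sum_le_sum fun m hm => ?_
        rw [Finset.mem_Ico] at hm
        have hm1 : (1 : ℝ) ≤ m := by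
          have : 1 ≤ m := by omega
          exact_mod_cast this
        have h7 : √((m : ℝ) + 1) ≤ 2 * √m := by
          rw [Real.sqrt_le_left (by positivity), mul_pow, Real.sq_sqrt (by linarith)]
          linarith
        have h8 : 0 < √(m : ℝ) := Real.sqrt_pos.2 (by linarith)
        have h9 : 0 < √((m : ℝ) + 1) := Real.sqrt_pos.2 (by linarith)
        rw [← mul_div_assoc, div_le_div_iff₀ h8 h9]
        have := mul_le_mul_of_nonneg_left h7 (hpc m)
        linarith
      nlinarith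
    refine ⟨by nlinarith, hs, ?_, ?_⟩
    · have h6 : ∑ m ∈ Finset.Ico 2 (n + 1), Pool.Agent.T2H95.Ret.pc m ≤
          (∑ m ∈ Finset.Ico 2 (n + 1), Pool.Agent.T2H95.Ret.pc m / √m) * √n := by
        rw [Finset.sum_mul]
        refine Finset.sum_le_sum fun m hm => ?_
        rw [Finset.mem_Ico] at hm
        have hm1 : (1 : ℝ) ≤ m := by
          have : 1 ≤ m := by omega
          exact_mod_cast this
        have h8 : 0 < √(m : ℝ) := Real.sqrt_pos.2 (by linarith)
        have h9 : √(m : ℝ) ≤ √(n : ℝ) := by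
          apply Real.sqrt_le_sqrt
          have : m ≤ n := by omega
          exact_mod_cast this
        rw [div_mul_eq_mul_div, le_div_iff₀ h8]
        exact mul_le_mul_of_nonneg_left h9 (hpc m)
      refine h6.trans (mul_le_mul_of_nonneg_right hs (Real.sqrt_nonneg _))
    · have h6 : ∑ m ∈ Finset.Ico 2 (n + 1), Pool.Agent.T2H95.Ret.dc m / m ≤
          2 * ∑ m ∈ Finset.Ico 2 (n + 1), Pool.Agent.T2H95.Ret.dc m / ((m : ℝ) + 1) := by
        rw [Finset.mul_sum]
        refine Finset.sum_le_sum fun m hm => ?_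
        rw [Finset.mem_Ico] at hm
        have hm1 : (1 : ℝ) ≤ m := by
          have : 1 ≤ m := by omega
          exact_mod_cast this
        rw [← mul_div_assoc, div_le_div_iff₀ (by linarith) (by linarith)]
        have := Pool.Agent.T2H95.Ret.dc_nn m
        nlinarith
      nlinarith

end Pool.Agent.Results.MP_b440f6_pr.ReturnProbabilities
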